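import Pool.Agent.P.MP_4c0b8d_co.Glue
import Pool.Agent.P.MP_4c0b8d_co.Hil
import Pool.Agent.P.MP_4c0b8d_co.HMs
import Pool.Agent.P.MP_4c0b8d_co.HMc
import Pool.Agent.P.MP_4c0b8d_co.Core
import Pool.Agent.P.MP_4c0b8d_co.CaseA
import Pool.Agent.P.MP_4c0b8d_co.CaseB

/-!
The exact maximum size of a two-sided intersecting family on a two-part ground set, for all
admissible parameters.
-/

namespace Pool.Agent.Results.MP_4c0b8d_co.ExactMax

open Pool.Agent.P.MP_4c0b8d_co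

/-- The largest two-sided intersecting family of sets with `k` points in `X1` and `l` points in
`X2`. -/
theorem result (X1 X2 : Finset ℕ) (hX : Disjoint X1 X2) (n1 n2 k l : ℕ) (e1 : X1.card = n1)
    (e2 : X2.card = n2) (hk : 1 ≤ k) (hl : 1 ≤ l) (hkl : 3 ≤ k + l) (h1 : 2 * k ≤ n1)
    (h2 : 2 * l ≤ n2) :
    IsGreatest {m : ℤ | ∃ F : Finset (Finset ℕ),
      (∀ A ∈ F, A ⊆ X1 ∪ X2 ∧ (A ∩ X1).card = k ∧ (A ∩ X2).card = l) ∧
      (∀ A ∈ F, ∀ B ∈ F, A ∩ B ≠ ∅) ∧ (∃ A ∈ F, ∃ B ∈ F, A ∩ B ∩ X1 = ∅) ∧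
      (∃ A ∈ F, ∃ B ∈ F, A ∩ B ∩ X2 = ∅) ∧ m = F.card}
      (max
        ((n2.choose l : ℤ) * ((n1 - 1).choose (k - 1) : ℤ)
          - ((n2 - l).choose l : ℤ) * ((n1 - k - 1).choose (k - 1) : ℤ)
          + (if k = 1 then (n1 : ℤ) - 1 else 1))
        ((n1.choose k : ℤ) * ((n2 - 1).choose (l - 1) : ℤ)
          - ((n1 - k).choose k : ℤ) * ((n2 - l - 1).choose (l - 1) : ℤ)
          + (if l = 1 then (n2 : ℤ) - 1 else 1))) := by
  subst e1 e2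
  exact exact_max
    (upper Hil.ekr (caseA (core (hms Hil.ekr) hmc)) (caseB Hil.ekr Hil.hilton prod))
    X1 X2 hX k l hk hl hkl h1 h2

end Pool.Agent.Results.MP_4c0b8d_co.ExactMax
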