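import Pool.Agent.P.MP_4c0b8d_co.M.Glue
import Pool.Agent.P.MP_4c0b8d_co.M.W
import Pool.Agent.P.MP_4c0b8d_co.M.WA
import Pool.Agent.P.MP_4c0b8d_co.M.SH
import Pool.Agent.P.MP_4c0b8d_co.M.PU
import Pool.Agent.P.MP_4c0b8d_co.M.HC
import Pool.Agent.P.MP_4c0b8d_co.M.VAL
import Pool.Agent.P.MP_4c0b8d_co.M.QC
import Pool.Agent.P.MP_4c0b8d_co.M.D
import Pool.Agent.P.MP_4c0b8d_co.M.DT
import Pool.Agent.P.MP_4c0b8d_co.M.BOX
import Pool.Agent.P.MP_4c0b8d_co.M.P2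
import Pool.Agent.P.MP_4c0b8d_co.M.SG
import Pool.Agent.P.MP_4c0b8d_co.M.P1

/-!
The exact maximum size of an intersecting family without a common point on a ground set with any
number of parts, for all admissible part sizes.
-/

namespace Pool.Agent.Results.MP_4c0b8d_co.MultiPart

open Pool.Agent.P.MP_4c0b8d_co.M

/-- The largest intersecting family without a common point whose members have `k u` points in
every part `X u`. -/
theorem result {ι : Type} [Fintype ι] [DecidableEq ι] (X : ι → Finset ℕ)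
    (hX : ∀ u v, u ≠ v → Disjoint (X u) (X v)) (n k : ι → ℕ) (hn : ∀ u, (X u).card = n u)
    (hk : ∀ u, 1 ≤ k u) (h2 : ∀ u, 2 * k u ≤ n u)
    (h3 : (∃ t, 2 ≤ k t) ∨ 3 ≤ Fintype.card ι) :
    IsGreatest {m : ℕ | ∃ F : Finset (Finset ℕ),
      (∀ A ∈ F, A ⊆ Finset.univ.biUnion X ∧ ∀ u, (A ∩ X u).card = k u) ∧
      (∀ A ∈ F, ∀ B ∈ F, A ∩ B ≠ ∅) ∧ (∀ x, ∃ A ∈ F, x ∉ A) ∧ m = F.card}
      ((Finset.univ.filter fun p : ι × Finset ι =>
          p.1 ∉ p.2 ∧ (2 ≤ k p.1 ∨ 2 ≤ ∑ u ∈ p.2, k u)).sup fun p =>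
        (∏ u ∈ (insert p.1 p.2)ᶜ, (n u).choose (k u)) *
          ((n p.1 - 1).choose (k p.1 - 1) * (∏ u ∈ p.2, (n u).choose (k u)) -
            (n p.1 - k p.1 - 1).choose (k p.1 - 1) * (∏ u ∈ p.2, (n u - k u).choose (k u)) +
            (if k p.1 = 1 then n p.1 - 1 else 1))) := by
  obtain rfl : (fun u => (X u).card) = n := funext hn
  have w := p_W p_V
  have a := p_WA w
  have st := p_STEP p_SH p_PU
  have hc := p_HC w
  have bx := p_BOX hc (p_TRI a) p_QC (p_R3 p_VAL p_QC (p_DT p_D1 p_D2))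
  exact glue (p_LOW (p_POS w) hc p_VAL)
    (p_P1 a (p_WB w) (p_W2 w) st (p_P2 a (p_W2 w) st bx) (p_SG p_V w)) ⟨hX, hk, h2⟩ h3

end Pool.Agent.Results.MP_4c0b8d_co.MultiPart
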